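import Pool.Agent.Helper18.FM.GoalsC
import Pool.Agent.Helper82.HB.Cal

/-! # FM: the connection data of a holomorphic map (FRE) -/

open Complex Metric Set Filter Topology MeasureTheory
open scoped ContDiff ComplexConjugate ComplexOrder Manifold Matrix

namespace Pool.Agent.Helper10.FM.FRE

open Pool.Agent.Helper95.Lin Pool.Agent.Helper16.Abund Pool.Agent.Helper92.Orb
  Pool.Agent.Helper10.SP Pool.Agent.Helper95.RK Pool.Agent.Helper57.HS
  Pool.Agent.Helper82.HB Pool.Agent.Helper18.FM
open Pool.Agent.Helper45.HS (SmM cd_congr' cd_sum'' cd_mul'' cdbM_congr cdbM_sum cdbM_smul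
  cdM_congr SmM.smul SmM.sum SmM.cdbM)
open Pool.Agent.Helper99.RK (holo_cdb holo_cd)

variable {n m : ℕ} {V : Set (Cn n)} {W : Set (Cn m)} {F : Cn n → Cn m} {x : Cn n}

/-- The entries of the differential are holomorphic. -/
theorem dF_holo (hV : IsOpen V) (hF : DifferentiableOn ℂ F V) (i : Fin n) (a : Fin m) :
    DifferentiableOn ℂ (fun x => dF F x i a) V := by
  intro y hy
  have h4 := ((holo_fderiv hV hF y hy).clm_apply
    (differentiableWithinAt_const (Pi.single i (1 : ℂ))))
  exact (differentiableWithinAt_pi.1 h4) a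

theorem lin_expand (L : Cn m →L[ℝ] ℂ) (w : Cn m) :
    L w = ∑ a, (((w a).re : ℂ) * L (Pi.single a 1) + ((w a).im : ℂ) * L (Pi.single a I)) := by
  have h1 : w = ∑ a, ((w a).re • (Pi.single a 1 : Cn m) + (w a).im • (Pi.single a I : Cn m)) := by
    funext b
    rw [Finset.sum_apply, Finset.sum_eq_single b]
    · simp only [Pi.add_apply, Pi.smul_apply, Pi.single_eq_same, real_smul, mul_one]
      exact (re_add_im (w b)).symm
    · intro c _ hc
      simp only [Pi.add_apply, Pi.smul_apply, Pi.single_eq_of_ne hc.symm, smul_zero, add_zero]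
    · intro h; exact absurd (Finset.mem_univ b) h
  conv_lhs => rw [h1]
  rw [map_sum]
  refine Finset.sum_congr rfl fun a _ => ?_
  rw [map_add, map_smul, map_smul, real_smul, real_smul]

/-- The chain rules. -/
theorem chn (hV : IsOpen V) (hF : DifferentiableOn ℂ F V) (hx : x ∈ V) {f : Cn m → ℂ}
    (hf : DifferentiableAt ℝ f (F x)) (k : Fin n) :
    cd k (fun y => f (F y)) x = ∑ a, dF F x k a * cd a f (F x) ∧
    cdb k (fun y => f (F y)) x = ∑ a, conj (dF F x k a) * cdb a f (F x) := by
  have hFx : DifferentiableAt ℂ F x := hF.differentiableAt (hV.mem_nhds hx)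
  have h1 : HasFDerivAt F ((fderiv ℂ F x).restrictScalars ℝ) x :=
    hFx.hasFDerivAt.restrictScalars ℝ
  have h2 : fderiv ℝ (fun y => f (F y)) x =
      (fderiv ℝ f (F x)).comp ((fderiv ℂ F x).restrictScalars ℝ) :=
    (hf.hasFDerivAt.comp x h1).fderiv
  have h3 : fderiv ℂ F x (Pi.single k I) = I • fderiv ℂ F x (Pi.single k 1) := by
    rw [← map_smul]
    congr 1
    rw [← Pi.single_smul, smul_eq_mul, mul_one]
  have h4 : fderiv ℝ (fun y => f (F y)) x (Pi.single k 1) =
      fderiv ℝ f (F x) (fderiv ℂ F x (Pi.single k 1)) := by rw [h2]; rfl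
  have h5 : fderiv ℝ (fun y => f (F y)) x (Pi.single k I) =
      fderiv ℝ f (F x) (I • fderiv ℂ F x (Pi.single k 1)) := by rw [h2, ← h3]; rfl
  have h6 : ∀ a, fderiv ℂ F x (Pi.single k 1) a = dF F x k a := fun a => rfl
  constructor
  · unfold cd
    rw [h4, h5, lin_expand _ (fderiv ℂ F x (Pi.single k 1)),
      lin_expand _ (I • fderiv ℂ F x (Pi.single k 1)), Finset.mul_sum, ← Finset.sum_sub_distrib]
    refine Finset.sum_congr rfl fun a _ => ?_
    simp only [Pi.smul_apply, smul_eq_mul, h6, I_mul_re, I_mul_im, ofReal_neg]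
    conv_rhs => rw [← re_add_im (dF F x k a)]
    linear_combination (((dF F x k a).im : ℂ) * fderiv ℝ f (F x) (Pi.single a I)) * I_sq
  · unfold cdb
    rw [h4, h5, lin_expand _ (fderiv ℂ F x (Pi.single k 1)),
      lin_expand _ (I • fderiv ℂ F x (Pi.single k 1)), Finset.mul_sum, ← Finset.sum_add_distrib]
    refine Finset.sum_congr rfl fun a _ => ?_
    simp only [Pi.smul_apply, smul_eq_mul, h6, I_mul_re, I_mul_im, ofReal_neg]
    conv_rhs => rw [← re_add_im (dF F x k a)]
    rw [map_add, map_mul, conj_ofReal, conj_ofReal, conj_I]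
    linear_combination (((dF F x k a).im : ℂ) * fderiv ℝ f (F x) (Pi.single a I)) * I_sq

/-- `cd k` of a holomorphic function. -/
theorem cd_holo_eq {f : Cn n → ℂ} (hf : DifferentiableAt ℂ f x) (k : Fin n) :
    cd k f x = 2 * fderiv ℂ f x (Pi.single k 1) := by
  have h1 : fderiv ℝ f x = (fderiv ℂ f x).restrictScalars ℝ := hf.fderiv_restrictScalars ℝ
  have h3 : fderiv ℂ f x (Pi.single k I) = I * fderiv ℂ f x (Pi.single k 1) := by
    rw [← smul_eq_mul, ← map_smul]
    congr 1
    rw [← Pi.single_smul, smul_eq_mul, mul_one]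
  unfold cd
  rw [h1, ContinuousLinearMap.coe_restrictScalars', h3]
  linear_combination (-(fderiv ℂ f x (Pi.single k 1))) * I_sq

/-- The rows of the differential are half of the `cd` of the components. -/
theorem dF_eq (hV : IsOpen V) (hF : DifferentiableOn ℂ F V) (hx : x ∈ V) (i : Fin n) (a : Fin m) :
    cd i (fun y => F y a) x = 2 * dF F x i a := by
  have hFx : DifferentiableAt ℂ F x := hF.differentiableAt (hV.mem_nhds hx)
  have h1 : HasFDerivAt (fun y => F y a)
      ((ContinuousLinearMap.proj a).comp (fderiv ℂ F x)) x :=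
    hasFDerivAt_pi'.1 hFx.hasFDerivAt a
  rw [cd_holo_eq h1.differentiableAt i, h1.fderiv]
  rfl

theorem dF_sym (hV : IsOpen V) (hF : DifferentiableOn ℂ F V) (hx : x ∈ V) (k i : Fin n)
    (a : Fin m) : cd k (fun y => dF F y i a) x = cd i (fun y => dF F y k a) x := by
  have hFa : DifferentiableOn ℂ (fun y => F y a) V := fun y hy =>
    differentiableWithinAt_pi.1 (hF y hy) a
  have hs : ContDiffOn ℝ ∞ (fun y => F y a) V := holo_contDiffOn_real hV hFa
  have h1 : ∀ j l, cd j (cd l (fun y => F y a)) x = 2 * cd j (fun y => dF F y l a) x := by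
    intro j l
    have h2 : cd j (cd l (fun y => F y a)) x = cd j (fun y => (fun _ => (2 : ℂ)) y *
        (fun z => dF F z l a) y) x :=
      (cd_congr' hV hx (fun y hy => dF_eq hV hF hy l a) j).1
    rw [h2, (cd_mul'' hV hx (f := fun _ => (2 : ℂ)) contDiffOn_const
      (holo_contDiffOn_real hV (dF_holo hV hF l a)) j).1,
      (Pool.Agent.Helper45.HS.cd_const'' (2 : ℂ) j).1]
    ring
  have h3 : cd k (cd i (fun y => F y a)) x = cd i (cd k (fun y => F y a)) x :=
    ((Wirt.wirt V hV _ _ hs hs).2.2.2.2.1 k i x hx).1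
  rw [h1, h1] at h3
  exact mul_left_cancel₀ two_ne_zero h3

/-- FRE. -/
theorem t : Pool.Agent.Helper18.FM.S_FRE := by
  intro n m V W F hN hV hW hmaps hF hp hs
  have hFs : ContDiffOn ℝ ∞ F V := holo_contDiffOn_real hV hF
  have hG : ∀ a, SmM (GamE hN a) W := fun a => gamE_smooth hW hs hp a
  have hR : ∀ a b, SmM (RE hN a b) W := fun a b => RE_smooth hW hs hp a b
  have hGF : ∀ a, SmM (fun x => Gam hN a (F x)) V := fun a p q => (hG a p q).comp hFs hmaps
  have hd : ∀ i a, DifferentiableOn ℂ (fun x => dF F x i a) V := fun i a => dF_holo hV hF i a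
  have hdbG : ∀ x ∈ V, ∀ a l, cdbM l (fun y => Gam hN a (F y)) x =
      ∑ b, conj (dF F x l b) • cdbM b (Gam hN a) (F x) := by
    intro x hx a l
    ext p q
    rw [Matrix.sum_apply]
    exact (chn hV hF hx (f := fun y => Gam hN a y p q)
      (Wirt.dAt hW (hG a p q) (hmaps hx)) l).2
  have hgam : ∀ x ∈ V, ∀ k, GamE (fun x => hN (F x)) k x = ∑ a, dF F x k a • Gam hN a (F x) := by
    intro x hx k
    have h1 : cdM k (fun x => hN (F x)) x = ∑ a, dF F x k a • cdM a hN (F x) := by
      ext p q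
      rw [Matrix.sum_apply]
      exact (chn hV hF hx (f := fun y => hN y p q) (Wirt.dAt hW (hs p q) (hmaps hx)) k).1
    unfold GamE Gam
    rw [h1, Finset.sum_mul]
    refine Finset.sum_congr rfl fun a _ => ?_
    rw [Matrix.smul_mul]
  refine ⟨hd, fun a b => (hs a b).comp hFs hmaps, hGF, ?_, hgam, ?_, hdbG, ?_, ?_⟩
  · intro a b p q
    exact ((hR a b p q).comp hFs hmaps).continuousOn
  · intro x hx k l
    have hds : ∀ a, ContDiffOn ℝ ∞ (fun y => dF F y k a) V := fun a =>
      holo_contDiffOn_real hV (hd k a)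
    have h1 : RE (fun x => hN (F x)) k l x =
        cdbM l (fun y => ∑ a, dF F y k a • Gam hN a (F y)) x :=
      cdbM_congr hV hx (fun y hy => hgam y hy k) l
    rw [h1, cdbM_sum hV hx Finset.univ (F := fun a y => dF F y k a • Gam hN a (F y))
      (fun a _ => SmM.smul (hds a) (hGF a)) l]
    refine Finset.sum_congr rfl fun a _ => ?_
    rw [cdbM_smul hV hx (f := fun y => dF F y k a) (hds a) (hGF a) l,
      holo_cdb hV (hd k a) l hx, zero_smul, zero_add, hdbG x hx a l, Finset.smul_sum]
    refine Finset.sum_congr rfl fun b _ => ?_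
    rw [smul_smul]
  · intro x hx a b
    exact RE_herm hW hs hp (hmaps hx) a b
  · intro x hx k i a
    exact dF_sym hV hF hx k i a

end Pool.Agent.Helper10.FM.FRE
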